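import Pool.Agent.Helper52.NF.St2

set_option autoImplicit false

/-!
# Module LFS: sums at a node of degree 3
-/

namespace Pool.Agent.Helper79.NF

open Pool.Agent.Helper52.NF Finset

open Classical in
theorem pc2 {A : Type} (f g h : A) (hfg : f ≠ g) (hfh : f ≠ h) (hgh : g ≠ h) :
    ({f, g, h} : Finset A).powersetCard 2 = {{f, g}, {f, h}, {g, h}} := by
  have hc : ({f, g, h} : Finset A).card = 3 := Finset.card_eq_three.2 ⟨f, g, h, hfg, hfh, hgh, rfl⟩
  ext p
  simp only [mem_powersetCard, mem_insert, mem_singleton]
  constructor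
  · rintro ⟨hs, h2⟩
    have h1 : ({f, g, h} \ p : Finset A).card = 1 := by
      rw [card_sdiff_of_subset hs, hc, h2]
    obtain ⟨x, hx⟩ := card_eq_one.1 h1
    have hp : p = ({f, g, h} : Finset A) \ {x} := by
      rw [← hx, Finset.sdiff_sdiff_eq_self hs]
    have hxm : x ∈ ({f, g, h} : Finset A) := by
      have : x ∈ ({f, g, h} : Finset A) \ p := by rw [hx]; exact mem_singleton_self x
      exact (mem_sdiff.1 this).1
    simp only [mem_insert, mem_singleton] at hxm
    rcases hxm with rfl | rfl | rfl
    · right; right
      rw [hp]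
      ext y
      simp only [mem_sdiff, mem_insert, mem_singleton]
      constructor
      · tauto
      · rintro (rfl | rfl)
        · exact ⟨Or.inr (Or.inl rfl), Ne.symm hfg⟩
        · exact ⟨Or.inr (Or.inr rfl), Ne.symm hfh⟩
    · right; left
      rw [hp]
      ext y
      simp only [mem_sdiff, mem_insert, mem_singleton]
      constructor
      · tauto
      · rintro (rfl | rfl)
        · exact ⟨Or.inl rfl, hfg⟩
        · exact ⟨Or.inr (Or.inr rfl), Ne.symm hgh⟩
    · left
      rw [hp]
      ext y
      simp only [mem_sdiff, mem_insert, mem_singleton]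
      constructor
      · tauto
      · rintro (rfl | rfl)
        · exact ⟨Or.inl rfl, hfh⟩
        · exact ⟨Or.inr (Or.inl rfl), hgh⟩
  · rintro (rfl | rfl | rfl)
    · refine ⟨?_, card_pair hfg⟩
      intro y; simp only [mem_insert, mem_singleton]; tauto
    · refine ⟨?_, card_pair hfh⟩
      intro y; simp only [mem_insert, mem_singleton]; tauto
    · refine ⟨?_, card_pair hgh⟩
      intro y; simp only [mem_insert, mem_singleton]; tauto

open Classical in
theorem hLFS : StLFS := by
  intro A B _ I T z h3
  obtain ⟨f, g, h, hfg, hfh, hgh, hD⟩ := Finset.card_eq_three.1 h3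
  have hP := pc2 f g h hfg hfh hgh
  have n1 : ({f, g} : Finset A) ≠ {f, h} := by
    intro e
    have : g ∈ ({f, h} : Finset A) := by rw [← e]; simp
    simp only [mem_insert, mem_singleton] at this
    rcases this with h | h
    · exact hfg h.symm
    · exact hgh h
  have n2 : ({f, g} : Finset A) ≠ {g, h} := by
    intro e
    have : f ∈ ({g, h} : Finset A) := by rw [← e]; simp
    simp only [mem_insert, mem_singleton] at this
    rcases this with h | h
    · exact hfg h
    · exact hfh h
  have n3 : ({f, h} : Finset A) ≠ {g, h} := by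
    intro e
    have : f ∈ ({g, h} : Finset A) := by rw [← e]; simp
    simp only [mem_insert, mem_singleton] at this
    rcases this with h | h
    · exact hfg h
    · exact hfh h
  have s1 : ∀ p, sh I T p ≤ 1 := by
    intro p
    unfold sh
    split_ifs <;> omega
  have ef : ({f, g, h} : Finset A).erase f = {g, h} := by
    rw [erase_insert]; simp [hfg, hfh]
  have eg : ({f, g, h} : Finset A).erase g = {f, h} := by
    ext y
    simp only [mem_erase, mem_insert, mem_singleton]
    constructor
    · tauto
    · rintro (rfl | rfl)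
      · exact ⟨hfg, Or.inl rfl⟩
      · exact ⟨Ne.symm hgh, Or.inr (Or.inr rfl)⟩
  have eh : ({f, g, h} : Finset A).erase h = {f, g} := by
    ext y
    simp only [mem_erase, mem_insert, mem_singleton]
    constructor
    · tauto
    · rintro (rfl | rfl)
      · exact ⟨hfh, Or.inl rfl⟩
      · exact ⟨hgh, Or.inr (Or.inl rfl)⟩
  have wv : ∀ y, wf I T y z = (2 - sh I T ((Dz I T z).erase y)) +
      ∑ p ∈ ((Dz I T z).powersetCard 2).filter (fun p => y ∈ p), sh I T p := by
    intro y
    unfold wf
    rw [if_pos h3]
  have wvf : wf I T f z = (2 - sh I T {g, h}) + (sh I T {f, g} + sh I T {f, h}) := by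
    rw [wv, hD, hP, ef]
    have : filter (fun p => f ∈ p) ({{f, g}, {f, h}, {g, h}} : Finset (Finset A)) =
        {{f, g}, {f, h}} := by
      simp [filter_insert, filter_singleton, hfg, hfh]
    rw [this, sum_pair n1]
  have wvg : wf I T g z = (2 - sh I T {f, h}) + (sh I T {f, g} + sh I T {g, h}) := by
    rw [wv, hD, hP, eg]
    have : filter (fun p => g ∈ p) ({{f, g}, {f, h}, {g, h}} : Finset (Finset A)) =
        {{f, g}, {g, h}} := by
      simp [filter_insert, filter_singleton, Ne.symm hfg, hgh]
    rw [this, sum_pair n2]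
  have wvh : wf I T h z = (2 - sh I T {f, g}) + (sh I T {f, h} + sh I T {g, h}) := by
    rw [wv, hD, hP, eh]
    have : filter (fun p => h ∈ p) ({{f, g}, {f, h}, {g, h}} : Finset (Finset A)) =
        {{f, h}, {g, h}} := by
      simp [filter_insert, filter_singleton, Ne.symm hfh, Ne.symm hgh]
    rw [this, sum_pair n3]
  have a1 := s1 {f, g}
  have a2 := s1 {f, h}
  have a3 := s1 {g, h}
  constructor
  · rw [hD, hP, sum_insert (by simp [hfg, hfh]), sum_pair hgh, sum_insert (by simp [n1, n2]),
      sum_pair n3, wvf, wvg, wvh]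
    omega
  · intro p hp
    rw [hD, hP] at hp
    simp only [mem_insert, mem_singleton] at hp
    rcases hp with rfl | rfl | rfl
    · rw [sum_pair hfg, wvf, wvg]; omega
    · rw [sum_pair hfh, wvf, wvh]; omega
    · rw [sum_pair hgh, wvg, wvh]; omega

end Pool.Agent.Helper79.NF
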